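import Pool.Agent.W2helper44.CP.Stm

/-!
# Project CP, piece UNI
-/

set_option autoImplicit false

open Set Filter Topology MeasureTheory
open scoped ContDiff

noncomputable section

namespace Pool.Agent.W4helper65.CP

open Pool.Agent.W2helper44.CP

abbrev Mt := Matrix (Fin 3) (Fin 3) ℂ

theorem mem_CP2_iff (P : Mat3) : P ∈ CP2 ↔
    (Matrix.of P : Mt).conjTranspose = Matrix.of P ∧
    (Matrix.of P : Mt) * Matrix.of P = Matrix.of P ∧ (Matrix.of P : Mt).trace = 1 := by
  constructor
  · rintro ⟨h1, h2, h3⟩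
    refine ⟨?_, ?_, h3⟩
    · ext i j
      rw [Matrix.conjTranspose_apply, Matrix.of_apply, Matrix.of_apply, h1 j i]
    · ext i j
      rw [Matrix.mul_apply]
      exact h2 i j
  · rintro ⟨h1, h2, h3⟩
    refine ⟨?_, ?_, h3⟩
    · intro i j
      have := congrFun (congrFun h1 j) i
      rw [Matrix.conjTranspose_apply] at this
      exact this.symm
    · intro i j
      have := congrFun (congrFun h2 i) j
      rw [Matrix.mul_apply] at this
      exact this

theorem of_conjBy (W : Mt) (P : Mat3) :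
    (Matrix.of (conjBy W P) : Mt) = W * Matrix.of P * W.conjTranspose := rfl

theorem conjBy_mem {W : Mt} (hW : W.conjTranspose * W = 1) {P : Mat3}
    (hP : P ∈ CP2) : conjBy W P ∈ CP2 := by
  rw [mem_CP2_iff] at hP ⊢
  obtain ⟨h1, h2, h3⟩ := hP
  rw [of_conjBy]
  refine ⟨?_, ?_, ?_⟩
  · rw [Matrix.conjTranspose_mul, Matrix.conjTranspose_mul, Matrix.conjTranspose_conjTranspose, h1,
      Matrix.mul_assoc]
  · calc W * Matrix.of P * W.conjTranspose * (W * Matrix.of P * W.conjTranspose)
        = W * (Matrix.of P * (W.conjTranspose * W) * Matrix.of P) * W.conjTranspose := by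
          simp only [Matrix.mul_assoc]
      _ = _ := by rw [hW, Matrix.mul_one, h2]
  · rw [Matrix.trace_mul_comm, ← Matrix.mul_assoc, hW, Matrix.one_mul, h3]

theorem conjBy_conjBy {W W' : Mt} (hW : W' * W = 1) (hW2 : W.conjTranspose * W'.conjTranspose = 1)
    (P : Mat3) : conjBy W' (conjBy W P) = P := by
  have : (Matrix.of (conjBy W' (conjBy W P)) : Mt) = Matrix.of P := by
    rw [of_conjBy, of_conjBy]
    calc W' * (W * Matrix.of P * W.conjTranspose) * W'.conjTranspose
        = (W' * W) * Matrix.of P * (W.conjTranspose * W'.conjTranspose) := by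
          simp only [Matrix.mul_assoc]
      _ = _ := by rw [hW, hW2, Matrix.one_mul, Matrix.mul_one]
  exact this

theorem contDiff_conjBy_param {V : ℝ → Mt} (hV : ∀ i j, ContDiff ℝ ∞ fun t => V t i j) :
    ContDiff ℝ ∞ fun q : ℝ × Mat3 => conjBy (V q.1) q.2 := by
  rw [contDiff_pi]
  intro i
  rw [contDiff_pi]
  intro j
  simp only [conjBy, Matrix.mul_apply, Matrix.conjTranspose_apply, Matrix.of_apply]
  refine ContDiff.sum fun l _ => ContDiff.mul (ContDiff.sum fun k _ => ContDiff.mul ?_ ?_) ?_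
  · exact (hV i k).comp contDiff_fst
  · exact (contDiff_apply_apply ℝ ℂ k l).comp contDiff_snd
  · exact Complex.conjCLE.contDiff.comp ((hV j l).comp contDiff_fst)

attribute [local irreducible] conjBy

theorem contDiff_conjBy (W : Mt) : ContDiff ℝ ∞ (conjBy W) := by
  have h := contDiff_conjBy_param (V := fun _ => W) fun i j => contDiff_const
  have h2 : ContDiff ℝ ∞ (fun P : Mat3 => ((0 : ℝ), P)) := contDiff_const.prodMk contDiff_id
  have h3 := h.comp h2
  exact h3

theorem isDiffeo_conjBy {W : Mt} (hW : W.conjTranspose * W = 1) (hW2 : W * W.conjTranspose = 1) :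
    IsDiffeo CP2 (conjBy W) := by
  refine ⟨contDiff_conjBy W, fun P hP => conjBy_mem hW hP, conjBy W.conjTranspose,
    contDiff_conjBy _, fun P hP => conjBy_mem (by rwa [Matrix.conjTranspose_conjTranspose]) hP,
    fun P _ => conjBy_conjBy hW ?_ P, fun P _ => conjBy_conjBy hW2 ?_ P⟩
  · rwa [Matrix.conjTranspose_conjTranspose]
  · rwa [Matrix.conjTranspose_conjTranspose]

open scoped Matrix.Norms.L2Operator in
theorem exists_path {U : Mt} (hU : U * U.conjTranspose = 1) (hU2 : U.conjTranspose * U = 1) :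
    ∃ (c : ℂ) (V : ℝ → Mt), c * star c = 1 ∧ (∀ i j, ContDiff ℝ ∞ fun t => V t i j) ∧
      (∀ t, V t * (V t).conjTranspose = 1 ∧ (V t).conjTranspose * V t = 1) ∧ V 0 = 1 ∧
      V 1 = c • U := by
  have hfin := Matrix.finite_spectrum U
  -- a constant
  obtain ⟨c, hc, hcs⟩ : ∃ c : ℂ, ‖c‖ = 1 ∧ -c⁻¹ ∉ spectrum ℂ U := by
    by_contra hcon
    push Not at hcon
    have hf : ∀ n : ℕ, -(Complex.exp ((1 / ((n : ℝ) + 1) : ℝ) * Complex.I))⁻¹ ∈ spectrum ℂ U :=
      fun n => hcon _ (Complex.norm_exp_ofReal_mul_I _)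
    refine (Set.infinite_of_injective_forall_mem (f := fun n : ℕ =>
      -(Complex.exp ((1 / ((n : ℝ) + 1) : ℝ) * Complex.I))⁻¹) ?_ hf) hfin
    intro m n hmn
    have h1 : Complex.exp ((1 / ((m : ℝ) + 1) : ℝ) * Complex.I) =
        Complex.exp ((1 / ((n : ℝ) + 1) : ℝ) * Complex.I) := inv_injective (neg_injective hmn)
    have hb : ∀ k : ℕ, 0 < 1 / ((k : ℝ) + 1) ∧ 1 / ((k : ℝ) + 1) ≤ 1 := by
      intro k
      have hk : (0 : ℝ) ≤ k := Nat.cast_nonneg k
      constructor
      · positivity
      · rw [div_le_one (by positivity)]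
        linarith
    have hpi := Real.pi_gt_three
    have him : ∀ x : ℝ, ((x : ℂ) * Complex.I).im = x := by
      intro x
      simp
    have h2 := Complex.exp_inj_of_neg_pi_lt_of_le_pi (x := ((1 / ((m : ℝ) + 1) : ℝ) * Complex.I))
      (y := ((1 / ((n : ℝ) + 1) : ℝ) * Complex.I)) (by rw [him]; linarith [(hb m).1])
      (by rw [him]; linarith [(hb m).2]) (by rw [him]; linarith [(hb n).1])
      (by rw [him]; linarith [(hb n).2]) h1
    have h3 := congrArg Complex.im h2
    rw [him, him] at h3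
    have hm : (0 : ℝ) < (m : ℝ) + 1 := by positivity
    have hn : (0 : ℝ) < (n : ℝ) + 1 := by positivity
    rw [div_eq_div_iff hm.ne' hn.ne'] at h3
    have : (m : ℝ) = n := by linarith
    exact_mod_cast this
  have hc0 : c ≠ 0 := by
    intro h
    rw [h, norm_zero] at hc
    exact zero_ne_one hc
  have hcc : c * star c = 1 := by
    have h := Complex.mul_conj c
    rw [Complex.normSq_eq_norm_sq, hc] at h
    simpa using h
  have hcc' : star c * c = 1 := by rw [mul_comm]; exact hcc
  have hu : c • U ∈ unitary Mt := by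
    rw [Unitary.mem_iff]
    rw [Matrix.star_eq_conjTranspose, Matrix.conjTranspose_smul]
    constructor
    · rw [Matrix.smul_mul, Matrix.mul_smul, hU2, smul_smul, hcc', one_smul]
    · rw [Matrix.smul_mul, Matrix.mul_smul, hU, smul_smul, hcc, one_smul]
  have hns : (-1 : ℂ) ∉ spectrum ℂ (c • U) := by
    intro h
    apply hcs
    have h1 : (Units.mk0 c hc0) • (-c⁻¹) ∈ spectrum ℂ ((Units.mk0 c hc0) • U) := by
      have e1 : (Units.mk0 c hc0) • (-c⁻¹) = (-1 : ℂ) := by
        rw [Units.smul_def, Units.val_mk0, smul_eq_mul, mul_neg, mul_inv_cancel₀ hc0]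
      have e2 : (Units.mk0 c hc0) • U = c • U := by
        rw [Units.smul_def, Units.val_mk0]
      rw [e1, e2]
      exact h
    exact spectrum.smul_mem_smul_iff.1 h1
  have hlt := (Unitary.norm_sub_one_lt_two_iff hu).2 hns
  set H : selfAdjoint Mt := Unitary.argSelfAdjoint ⟨c • U, hu⟩ with hH
  have hexp : selfAdjoint.expUnitary H = ⟨c • U, hu⟩ :=
    expUnitary_argSelfAdjoint (u := ⟨c • U, hu⟩) hlt
  refine ⟨c, fun t => (selfAdjoint.expUnitary (t • H) : Mt), hcc, ?_, ?_, ?_, ?_⟩
  · intro i j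
    have h1 : ContDiff ℂ ∞ (NormedSpace.exp : Mt → Mt) := by
      rw [contDiff_iff_contDiffAt]
      intro x
      exact (NormedSpace.exp_analytic (𝕂 := ℂ) x).contDiffAt
    have h2 : ContDiff ℂ ∞ (fun z : ℂ => NormedSpace.exp (z • (Complex.I • (H : Mt)))) :=
      h1.comp (contDiff_id.smul contDiff_const)
    have h3 : ContDiff ℂ ∞ (fun A : Mt => A i j) :=
      (LinearMap.toContinuousLinearMap (Matrix.entryLinearMap ℂ ℂ i j)).contDiff
    have h4 : ContDiff ℝ ∞ (fun z : ℂ => NormedSpace.exp (z • (Complex.I • (H : Mt))) i j) :=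
      (h3.comp h2).restrict_scalars ℝ
    have h5 := h4.comp Complex.ofRealCLM.contDiff
    have h6 : (fun t : ℝ => (selfAdjoint.expUnitary (t • H) : Mt) i j) =
        (fun z : ℂ => NormedSpace.exp (z • (Complex.I • (H : Mt))) i j) ∘ Complex.ofRealCLM := by
      funext t
      simp only [selfAdjoint.expUnitary_coe, Function.comp, Complex.ofRealCLM_apply]
      have h7 : Complex.I • ((t • H : selfAdjoint Mt) : Mt) = (t : ℂ) • (Complex.I • (H : Mt)) := by
        rw [smul_comm]
        rfl
      rw [h7]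
    rw [h6]
    exact h5
  · intro t
    have h := Unitary.mem_iff.1 (selfAdjoint.expUnitary (t • H)).2
    rw [Matrix.star_eq_conjTranspose] at h
    exact ⟨h.2, h.1⟩
  · simp
  · simp only [one_smul]
    rw [hexp]

theorem conj_one (P : Mat3) : conjBy 1 P = P := by
  have : (Matrix.of (conjBy 1 P) : Mt) = Matrix.of P := by
    rw [of_conjBy, Matrix.conjTranspose_one, Matrix.one_mul, Matrix.mul_one]
  exact Matrix.of.injective this

theorem conj_smul (U : Mt) {c : ℂ} (hc : c * star c = 1) (P : Mat3) :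
    conjBy (c • U) P = conjBy U P := by
  have : (Matrix.of (conjBy (c • U) P) : Mt) = Matrix.of (conjBy U P) := by
    rw [of_conjBy, of_conjBy, Matrix.conjTranspose_smul, Matrix.smul_mul, Matrix.smul_mul,
      Matrix.mul_smul, smul_smul, hc, one_smul]
  exact Matrix.of.injective this

theorem p_UNI : P_UNI := by
  intro _ U hU hU2
  obtain ⟨c, V, hc, hV, hu, h0, h1⟩ := exists_path hU hU2
  refine ⟨fun q => conjBy (V q.1) q.2, contDiff_conjBy_param hV, fun t => ?_, ?_, ?_⟩
  · have h := isDiffeo_conjBy (hu t).2 (hu t).1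
    exact h
  · intro P _
    simp only [h0]
    exact conj_one P
  · intro P _
    simp only [h1]
    exact conj_smul U hc P

end Pool.Agent.W4helper65.CP
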